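import Mathlib

set_option autoImplicit false

/-!
Multiple Clausen values (MP_528be1_nt): definitions and statements of the parts.
-/

open Filter Topology

namespace Pool.Agent.W993.MC

/-- truncated nested sum of a word (list of letters `(a, z)`):
`S [(a1,z1),...,(an,zn)] M = sum over M >= l1 > l2 > ... > ln > 0 of prod z_j^(l_j) / l_j^(a_j)`
(the summation index is shifted by one). -/
noncomputable def S : List (ℕ × ℂ) → ℕ → ℂ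
  | [], _ => 1
  | (a, z) :: L, M => ∑ l ∈ Finset.range M, z ^ (l + 1) / ((l : ℂ) + 1) ^ a * S L l

/-- admissible words of weight `w` whose arguments are `N`-th roots of unity -/
def Adm (N w : ℕ) (L : List (ℕ × ℂ)) : Prop :=
  L ≠ [] ∧ (∀ p ∈ L, 1 ≤ p.1 ∧ p.2 ^ N = 1) ∧ (L.map Prod.fst).sum = w ∧ L.head? ≠ some (1, 1)

/-- the space spanned by the cyclotomic multiple zeta values of level `N` and weight `w` -/
noncomputable def Zsp (N w : ℕ) : Submodule ℚ ℂ :=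
  Submodule.span ℚ {v | ∃ L, Adm N w L ∧ Tendsto (S L) atTop (𝓝 v)}

/-- the primitive sixth root of unity -/
noncomputable def omega : ℂ := Complex.exp (Real.pi * Complex.I / 3)

/-- the word of the multiple Clausen value with exponents `a` -/
noncomputable def cword : List ℕ → List (ℕ × ℂ)
  | [] => []
  | a :: b => (a, omega) :: b.map (fun x => (x, 1))

/-- the space of multiple Clausen values of weight `w` -/
noncomputable def Csp (w : ℕ) : Submodule ℚ ℂ :=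
  Submodule.span ℚ {v | ∃ a : List ℕ, a ≠ [] ∧ (∀ x ∈ a, 1 ≤ x) ∧ a.sum = w ∧
    Tendsto (S (cword a)) atTop (𝓝 v)}

/-- insertions of a letter into a word (all places, and merged with every letter) -/
noncomputable def ins (c : ℕ × ℂ) : List (ℕ × ℂ) → List (List (ℕ × ℂ))
  | [] => [[c]]
  | x :: L => (c :: x :: L) :: ((x.1 + c.1, x.2 * c.2) :: L) :: (ins c L).map (fun K => x :: K)

/-- harmonic numbers as real numbers -/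
noncomputable def hm (M : ℕ) : ℝ := ∑ l ∈ Finset.range M, 1 / ((l : ℝ) + 1)

/-- MC-INS -/
def S_INS : Prop := ∀ (c : ℕ × ℂ) (L : List (ℕ × ℂ)) (M : ℕ),
  S L M * S [c] M = ((ins c L).map (fun K => S K M)).sum

/-- MC-EXP -/
def S_EXP : Prop := ∀ (k j : ℕ), 1 ≤ k + 2 * j →
  ∃ Ls : List (List (ℕ × ℂ)), (∀ L ∈ Ls, Adm 2 (k + 2 * j) L) ∧
    ∀ M, (S [(1, -1)] M) ^ k * (S [(2, 1)] M) ^ j = (Ls.map (fun K => S K M)).sum

/-- MC-BD -/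
def S_BD : Prop := ∀ (L : List (ℕ × ℂ)), (∀ p ∈ L, 1 ≤ p.1 ∧ ‖p.2‖ ≤ 1) →
  ∀ M, ‖S L M‖ ≤ hm M ^ L.length

/-- MC-SUM -/
def S_SUM : Prop := ∀ n : ℕ, Summable (fun l : ℕ => hm (l + 1) ^ n / ((l : ℝ) + 1) ^ 2)

/-- MC-DIR -/
def S_DIR : Prop := ∀ (z : ℂ) (b : ℕ → ℂ), ‖z‖ ≤ 1 → z ≠ 1 → Tendsto b atTop (𝓝 0) →
  Summable (fun l => ‖b (l + 1) - b l‖) →
  ∃ v, Tendsto (fun M => ∑ l ∈ Finset.range M, z ^ (l + 1) * b l) atTop (𝓝 v)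

/-- MC-CV -/
def S_CV : Prop := ∀ (a : ℕ) (z : ℂ) (L : List (ℕ × ℂ)), 1 ≤ a → ‖z‖ ≤ 1 → (a, z) ≠ (1, 1) →
  (∀ p ∈ L, 1 ≤ p.1 ∧ ‖p.2‖ ≤ 1) → ∃ v, Tendsto (S ((a, z) :: L)) atTop (𝓝 v)

/-- MC-GEN: the generating function -/
def S_GEN : Prop := ∀ (k : ℕ) (x : ℂ), ‖x‖ < 1 →
  HasSum (fun l : ℕ => x ^ (l + 1) / ((l : ℂ) + 1) * S (List.replicate k (1, 1)) l)
    ((-Complex.log (1 - x)) ^ (k + 1) / ((k + 1).factorial : ℂ))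

/-- MC-ABEL -/
def S_ABEL : Prop := ∀ (k : ℕ) (z : ℂ), ‖z‖ = 1 → z ≠ 1 →
  Tendsto (S ((1, z) :: List.replicate k (1, 1))) atTop
    (𝓝 ((-Complex.log (1 - z)) ^ (k + 1) / ((k + 1).factorial : ℂ)))

/-- MC-P -/
def S_P : Prop := Tendsto (S [(2, 1)]) atTop (𝓝 ((Real.pi : ℂ) ^ 2 / 6)) ∧
  Tendsto (S [(2, -1)]) atTop (𝓝 (-(Real.pi : ℂ) ^ 2 / 12))

/-- MC-TR -/
def S_TR : Prop := Transcendental ℚ (Real.log 2 / Real.pi)

/-- MC-LI -/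
def S_LI : Prop := ∀ w : ℕ, LinearIndependent ℚ
  (fun j : Fin (w / 2 + 1) => ((Real.log 2 : ℝ) : ℂ) ^ (w - 2 * (j : ℕ)) * ((Real.pi : ℝ) : ℂ) ^ (2 * (j : ℕ)))

/-- MC-OM -/
def S_OM : Prop := ‖omega‖ = 1 ∧ omega ≠ 1 ∧ omega ^ 6 = 1 ∧
  -Complex.log (1 - omega) = Complex.I * Real.pi / 3

/-- MC-CL -/
def S_CL : Prop := ∀ (w : ℕ) (v : ℂ), 2 ≤ w → Tendsto (S [(w, omega)]) atTop (𝓝 v) → v.re ≠ 0 ∧ v.im ≠ 0

/-- MC-LOW -/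
def S_LOW : Prop := ∀ w : ℕ, 1 ≤ w → ((w / 2 + 1 : ℕ) : Cardinal) ≤ Module.rank ℚ (Zsp 2 w)

/-- MC-STEP -/
def S_STEP : Prop := ∀ w : ℕ, 1 ≤ w → Module.rank ℚ (Zsp 2 w) + 1 ≤ Module.rank ℚ (Zsp 2 (w + 2))

/-- MC-Z2 -/
def S_Z2 : Prop := Module.rank ℚ (Zsp 2 1) = 1 ∧ Module.rank ℚ (Zsp 2 2) = 2

/-- MC-C2 -/
def S_C2 : Prop := Module.rank ℚ (Csp 1) = 1 ∧ Module.rank ℚ (Csp 2) = 2 ∧
  ∀ w : ℕ, 2 ≤ w → 2 ≤ Module.rank ℚ (Csp w)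

end Pool.Agent.W993.MC
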