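import Pool.Agent.W993.MC.Fin
import Pool.Agent.W337.MC.Ins
import Pool.Agent.W45.MC.Exp
import Pool.Agent.W150.MC.BD
import Pool.Agent.W414.MC.Sum
import Pool.Agent.W804.MC.Dir
import Pool.Agent.W486.MC.Cv
import Pool.Agent.W255.MC.Gen
import Pool.Agent.W412.MC.ABEL
import Pool.Agent.W154.MC.P
import Pool.Agent.W195.MC.LI
import Pool.Agent.W561.MC.Om
import Pool.Agent.W82.MC.CL
import Pool.Agent.W668.MC.Low
import Pool.Agent.W970.MC.Step
import Pool.Agent.W933.MC.Z2
import Pool.Agent.W493.MC.C2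

set_option autoImplicit false

/-!
Assembly of the parts (MP_528be1_nt): everything except the transcendence of `log 2 / π`.
-/

namespace Pool.Agent.W993.MC.Asm

open Pool.Agent.W993.MC

theorem hINS : S_INS := Pool.Agent.W337.MC.ins_main
theorem hEXP : S_EXP := Pool.Agent.W45.MC.EXP hINS
theorem hCV : S_CV := Pool.Agent.W486.MC.cv Pool.Agent.W150.MC.bd Pool.Agent.W414.MC.Sum.main Pool.Agent.W804.MC.dir
theorem hGEN : S_GEN := Pool.Agent.W255.MC.gen
theorem hABEL : S_ABEL := Pool.Agent.W412.MC.abel hGEN hCV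
theorem hP : S_P := Pool.Agent.W154.MC.pval
theorem hOM : S_OM := Pool.Agent.W561.MC.s_om
theorem hCL : S_CL := Pool.Agent.W82.MC.cl
theorem hC2 : S_C2 := Pool.Agent.W493.MC.c2 hCV hABEL hOM hCL
theorem hLOW (h : S_TR) : S_LOW := Pool.Agent.W668.MC.Low.low hEXP hCV hABEL hP (Pool.Agent.W195.MC.li h)
theorem hSTEP (h : S_TR) : S_STEP := Pool.Agent.W970.MC.step hINS hCV hABEL hP h (hLOW h)
theorem hZ2 (h : S_TR) : S_Z2 := Pool.Agent.W933.MC.z2 hINS hABEL hP (hLOW h)

end Pool.Agent.W993.MC.Asm
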