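import Pool.Agent.W993.MC.Stm

set_option autoImplicit false

open Filter Topology

namespace Pool.Agent.W993.MC

theorem conv (hcv : S_CV) (N w : ℕ) (hN : 1 ≤ N) (L : List (ℕ × ℂ)) (h : Adm N w L) :
    ∃ v, Tendsto (S L) atTop (𝓝 v) := by
  obtain ⟨h0, h1, _, h3⟩ := h
  have hn : ∀ p ∈ L, 1 ≤ p.1 ∧ ‖p.2‖ ≤ 1 := by
    intro p hp
    refine ⟨(h1 p hp).1, ?_⟩
    have h4 : ‖p.2‖ ^ N = 1 := by rw [← norm_pow, (h1 p hp).2, norm_one]
    exact le_of_eq ((pow_eq_one_iff_of_nonneg (norm_nonneg _) (by omega)).mp h4)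
  cases L with
  | nil => exact absurd rfl h0
  | cons x L =>
    obtain ⟨a, z⟩ := x
    refine hcv a z L (hn (a, z) (by simp)).1 (hn (a, z) (by simp)).2 ?_ (fun p hp => hn p (by simp [hp]))
    intro h5
    apply h3
    simp [h5]

end Pool.Agent.W993.MC
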